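import Pool.Agent.Work.MP_b928c0_nt.Kill

namespace Pool.Agent.Work.MP_b928c0_nt

/-- digit condition -/
def DP (M : ℕ) (D : Finset (ZMod M)) (d v : ℕ) : Prop :=
  ∀ e < d, ((v / M ^ e : ℕ) : ZMod M) ∈ D

open Classical in
lemma count_res (M : ℕ) [NeZero M] (D : Finset (ZMod M)) :
    ((Finset.range M).filter (fun r : ℕ => (r : ZMod M) ∈ D)).card = D.card := by
  symm
  apply Finset.card_nbij' (i := fun x : ZMod M => x.val) (j := fun r : ℕ => (r : ZMod M))
  · intro x hx
    simp only [Finset.coe_filter, Finset.mem_range, Set.mem_ofPred_eq]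
    exact ⟨ZMod.val_lt x, by simpa using hx⟩
  · intro r hr
    simp only [Finset.coe_filter, Finset.mem_range, Set.mem_ofPred_eq] at hr
    exact hr.2
  · intro x _
    simp
  · intro r hr
    simp only [Finset.coe_filter, Finset.mem_range, Set.mem_ofPred_eq] at hr
    exact ZMod.val_cast_of_lt hr.1

open Classical in
lemma count_digits (M : ℕ) [NeZero M] (D : Finset (ZMod M)) :
    ∀ (d E : ℕ), d ≤ E →
      ((Finset.range (M ^ E)).filter (fun v => DP M D d v)).card = D.card ^ d * M ^ (E - d) := by
  have hM0 : 0 < M := Nat.pos_of_ne_zero (NeZero.ne M)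
  intro d
  induction d with
  | zero =>
    intro E _
    have : (Finset.range (M ^ E)).filter (fun v => DP M D 0 v) = Finset.range (M ^ E) := by
      apply Finset.filter_true_of_mem
      intro v _ e he
      omega
    rw [this]; simp
  | succ d ih =>
    intro E hE
    obtain ⟨E, rfl⟩ : ∃ E', E = E' + 1 := ⟨E - 1, by omega⟩
    have h1 := ih E (by omega)
    have h2 : ((Finset.range (M ^ (E + 1))).filter (fun v => DP M D (d + 1) v)).card
        = (((Finset.range M).filter (fun r : ℕ => (r : ZMod M) ∈ D)) ×ˢ
          ((Finset.range (M ^ E)).filter (fun v => DP M D d v))).card := by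
      apply Finset.card_nbij' (i := fun v => (v % M, v / M)) (j := fun q => q.1 + M * q.2)
      · intro v hv
        simp only [Finset.coe_filter, Finset.mem_range, Set.mem_ofPred_eq] at hv
        simp only [Finset.coe_product, Finset.coe_filter, Finset.mem_range, Set.mem_prod,
          Set.mem_ofPred_eq]
        refine ⟨⟨Nat.mod_lt _ hM0, ?_⟩, ?_, ?_⟩
        · have := hv.2 0 (by omega)
          simpa using this
        · rw [Nat.div_lt_iff_lt_mul hM0]
          rw [pow_succ] at hv; exact hv.1
        · intro e he
          have := hv.2 (e + 1) (by omega)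
          rw [pow_succ', ← Nat.div_div_eq_div_mul] at this
          exact this
      · intro q hq
        simp only [Finset.coe_product, Finset.coe_filter, Finset.mem_range, Set.mem_prod,
          Set.mem_ofPred_eq] at hq
        obtain ⟨⟨hq1, hq2⟩, hq3, hq4⟩ := hq
        simp only [Finset.coe_filter, Finset.mem_range, Set.mem_ofPred_eq]
        constructor
        · rw [pow_succ']
          calc q.1 + M * q.2 < M + M * q.2 := by omega
            _ = M * (q.2 + 1) := by ring
            _ ≤ M * M ^ E := Nat.mul_le_mul_left _ hq3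
        · intro e he
          rcases Nat.eq_zero_or_pos e with h | h
          · subst h
            simpa using hq2
          · obtain ⟨e, rfl⟩ : ∃ e', e = e' + 1 := ⟨e - 1, by omega⟩
            rw [pow_succ', ← Nat.div_div_eq_div_mul]
            have : (q.1 + M * q.2) / M = q.2 := by
              rw [Nat.add_mul_div_left _ _ hM0, Nat.div_eq_of_lt hq1, zero_add]
            rw [this]
            exact hq4 e (by omega)
      · intro v _
        simp only
        rw [Nat.mod_add_div]
      · intro q hq
        simp only [Finset.coe_product, Finset.coe_filter, Finset.mem_range, Set.mem_prod,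
          Set.mem_ofPred_eq] at hq
        obtain ⟨⟨hq1, hq2⟩, hq3, hq4⟩ := hq
        simp only
        rw [Nat.add_mul_div_left _ _ hM0, Nat.div_eq_of_lt hq1, zero_add,
          Nat.add_mul_mod_self_left, Nat.mod_eq_of_lt hq1]
    rw [h2, Finset.card_product, count_res, h1, pow_succ']
    have : E + 1 - (d + 1) = E - d := by omega
    rw [this]; ring

lemma dp_periodic (M : ℕ) (D : Finset (ZMod M)) (d E : ℕ) (h : d ≤ E) :
    Function.Periodic (DP M D d) (M ^ E) := by
  rcases Nat.eq_zero_or_pos M with hM | hM
  · subst hM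
    rcases Nat.eq_zero_or_pos E with hE | hE
    · subst hE
      have hd : d = 0 := by omega
      subst hd
      intro v
      simp [DP]
    · intro v
      rw [zero_pow (by omega), add_zero]
  intro v
  unfold DP
  apply propext
  apply forall_congr'
  intro e
  apply forall_congr'
  intro he
  have h1 : (v + M ^ E) / M ^ e = v / M ^ e + M * M ^ (E - e - 1) := by
    have h2 : M ^ E = M ^ e * (M * M ^ (E - e - 1)) := by
      rw [← pow_succ', ← pow_add]; congr 1; omega
    rw [h2, Nat.add_mul_div_left _ _ (Nat.pow_pos hM)]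
  rw [h1]
  push_cast
  simp

open Classical in
lemma count_shift (M : ℕ) [NeZero M] (D : Finset (ZMod M)) (d E : ℕ) (h : d ≤ E) (q : ℕ) :
    ((Finset.univ : Finset (Fin (M ^ E))).filter (fun u => DP M D d (q + u.val))).card
      = D.card ^ d * M ^ (E - d) := by
  rw [← count_digits M D d E h]
  have h1 := Nat.filter_Ico_card_eq_of_periodic q (M ^ E) (DP M D d) (dp_periodic M D d E h)
  have h2 := Nat.filter_Ico_card_eq_of_periodic 0 (M ^ E) (DP M D d) (dp_periodic M D d E h)
  rw [zero_add, Nat.Ico_zero_eq_range] at h2
  rw [h2, ← h1]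
  apply Finset.card_bij (fun (u : Fin (M ^ E)) _ => q + u.val)
  · intro u hu
    simp only [Finset.mem_filter, Finset.mem_univ, true_and] at hu
    simp only [Finset.mem_filter, Finset.mem_Ico]
    exact ⟨⟨by omega, by have := u.isLt; omega⟩, hu⟩
  · intro u _ v _ huv
    apply Fin.ext; omega
  · intro x hx
    simp only [Finset.mem_filter, Finset.mem_Ico] at hx
    refine ⟨⟨x - q, by omega⟩, ?_, ?_⟩
    · simp only [Finset.mem_filter, Finset.mem_univ, true_and]
      have : q + (x - q) = x := by omega
      rw [this]; exact hx.2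
    · simp only; omega

/-- extend a function on `Fin K` to `ℕ` -/
def ext {K N : ℕ} (t : Fin K → Fin N) (s : ℕ) : ℕ := if h : s < K then (t ⟨s, h⟩).val else 0

open Classical in
/-- Counting the functions for which no element of `W` is selected. -/
lemma count_bad (M : ℕ) [hM : Fact M.Prime] (D : Finset (ZMod M)) (K E d : ℕ)
    (W : Finset ℕ) (hW0 : ∀ x ∈ W, 0 < x) (hWK : ∀ x ∈ W, rad x < K)
    (hWd : ∀ x ∈ W, dig M x = d) (hdE : d ≤ E)
    (hinj : ∀ x ∈ W, ∀ y ∈ W, rad x = rad y → x = y) :
    (((Finset.univ : Finset (Fin K → Fin (M ^ E))).filter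
      (fun t => ∀ x ∈ W, x ∉ Sel M D (ext t))).card : ℝ)
      ≤ ((M : ℝ) ^ E) ^ K * (1 - ((D.card : ℝ) / M) ^ d) ^ W.card := by
  have : NeZero M := ⟨hM.out.ne_zero⟩
  have hM0 : (0 : ℝ) < M := by exact_mod_cast hM.out.pos
  set N : ℝ := (M : ℝ) ^ E with hN
  have hN0 : 0 < N := by rw [hN]; positivity
  set β : ℝ := ((D.card : ℝ) / M) ^ d with hβ
  have hDM : (D.card : ℝ) ≤ M := by
    have := Finset.card_le_univ D
    rw [ZMod.card] at this
    exact_mod_cast this
  have hβ1 : β ≤ 1 := by
    rw [hβ]
    apply pow_le_one₀ (by positivity)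
    rw [div_le_one hM0]; exact hDM
  -- the admissible sets of values
  set S : Fin K → Finset (Fin (M ^ E)) := fun s =>
    (Finset.univ : Finset (Fin (M ^ E))).filter
      (fun u => ∀ x ∈ W, rad x = s.val → ¬ DP M D d (Q x + u.val)) with hS
  have hsub : (Finset.univ : Finset (Fin K → Fin (M ^ E))).filter
      (fun t => ∀ x ∈ W, x ∉ Sel M D (ext t)) ⊆ Fintype.piFinset S := by
    intro t ht
    simp only [Finset.mem_filter, Finset.mem_univ, true_and] at ht
    rw [Fintype.mem_piFinset]
    intro s
    rw [hS]
    simp only [Finset.mem_filter, Finset.mem_univ, true_and]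
    intro x hx hxs hDP
    apply ht x hx
    refine ⟨hW0 x hx, ?_⟩
    rw [hWd x hx]
    have h1 : ext t (rad x) = (t s).val := by
      unfold ext
      rw [dif_pos (hWK x hx)]
      congr 2
      apply Fin.ext
      exact hxs
    intro e he
    rw [h1]
    exact hDP e he
  -- the classes used by W
  set R : Finset (Fin K) := (Finset.univ : Finset (Fin K)).filter
    (fun s => ∃ x ∈ W, rad x = s.val) with hR
  have hRcard : R.card = W.card := by
    symm
    apply Finset.card_bij (fun x hx => (⟨rad x, hWK x hx⟩ : Fin K))
    · intro x hx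
      rw [hR]
      simp only [Finset.mem_filter, Finset.mem_univ, true_and]
      exact ⟨x, hx, rfl⟩
    · intro x hx y hy hxy
      apply hinj x hx y hy
      simpa using hxy
    · intro s hs
      rw [hR] at hs
      simp only [Finset.mem_filter, Finset.mem_univ, true_and] at hs
      obtain ⟨x, hx, hxs⟩ := hs
      exact ⟨x, hx, Fin.ext hxs⟩
  have hScard : ∀ s, ((S s).card : ℝ) ≤ N * (if s ∈ R then (1 - β) else 1) := by
    intro s
    by_cases hs : s ∈ R
    · rw [if_pos hs]
      rw [hR] at hs
      simp only [Finset.mem_filter, Finset.mem_univ, true_and] at hs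
      obtain ⟨x, hx, hxs⟩ := hs
      have h1 : S s ⊆ ((Finset.univ : Finset (Fin (M ^ E))).filter
          (fun u => DP M D d (Q x + u.val)))ᶜ := by
        intro u hu
        rw [hS] at hu
        simp only [Finset.mem_filter, Finset.mem_univ, true_and] at hu
        simp only [Finset.mem_compl, Finset.mem_filter, Finset.mem_univ, true_and]
        exact hu x hx hxs
      have h2 := Finset.card_le_card h1
      rw [Finset.card_compl, count_shift M D d E hdE, Fintype.card_fin] at h2
      have h3 : D.card ^ d * M ^ (E - d) ≤ M ^ E := by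
        have := Finset.card_le_univ ((Finset.univ : Finset (Fin (M ^ E))).filter
          (fun u => DP M D d (Q x + u.val)))
        rw [count_shift M D d E hdE, Fintype.card_fin] at this
        exact this
      have h4 : ((S s).card : ℝ) ≤ (M : ℝ) ^ E - (D.card : ℝ) ^ d * (M : ℝ) ^ (E - d) := by
        have : ((S s).card : ℝ) ≤ ((M ^ E - D.card ^ d * M ^ (E - d) : ℕ) : ℝ) := by
          exact_mod_cast h2
        rw [Nat.cast_sub h3] at this
        push_cast at this
        exact this
      refine h4.trans (le_of_eq ?_)
      have h5 : (M : ℝ) ^ E = (M : ℝ) ^ d * (M : ℝ) ^ (E - d) := by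
        rw [← pow_add]; congr 1; omega
      rw [hβ, hN, h5, div_pow]
      field_simp
    · rw [if_neg hs, mul_one]
      have := Finset.card_le_univ (S s)
      rw [Fintype.card_fin] at this
      have h2 : ((S s).card : ℝ) ≤ ((M ^ E : ℕ) : ℝ) := by exact_mod_cast this
      push_cast at h2
      exact h2
  calc (((Finset.univ : Finset (Fin K → Fin (M ^ E))).filter
      (fun t => ∀ x ∈ W, x ∉ Sel M D (ext t))).card : ℝ)
      ≤ ((Fintype.piFinset S).card : ℝ) := by exact_mod_cast Finset.card_le_card hsub
    _ = ∏ s, ((S s).card : ℝ) := by rw [Fintype.card_piFinset]; push_cast; rfl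
    _ ≤ ∏ s, (N * (if s ∈ R then (1 - β) else 1)) := by
        apply Finset.prod_le_prod
        · intro s _; positivity
        · intro s _; exact hScard s
    _ = N ^ K * (1 - β) ^ W.card := by
        rw [Finset.prod_mul_distrib, Finset.prod_const, Finset.card_univ, Fintype.card_fin]
        congr 1
        rw [Finset.prod_ite_mem, Finset.univ_inter, Finset.prod_const, hRcard]

end Pool.Agent.Work.MP_b928c0_nt
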