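import Pool.Agent.Work.MP_b928c0_nt.Kill

namespace Pool.Agent.Work.MP_b928c0_nt

lemma rad_dvd (x : ℕ) : rad x ∣ x := Nat.prod_primeFactors_dvd x

lemma rad_le {x : ℕ} (hx : 0 < x) : rad x ≤ x := Nat.le_of_dvd hx (rad_dvd x)

lemma le_rad_of_mem {x p : ℕ} (hp : p ∈ x.primeFactors) : p ≤ rad x := by
  apply Nat.le_of_dvd
  · unfold rad
    apply Finset.prod_pos
    intro q hq
    exact (Nat.prime_of_mem_primeFactors hq).pos
  · exact Finset.dvd_prod_of_mem _ hp

/-- if the radical is at most `h` and `x > h ^ (log₂ h)`, some prime power exactly dividing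
`x` is at least `h` -/
lemma exists_large_pp {x h : ℕ} (hx : 0 < x) (hr : rad x ≤ h) (hbig : h ^ (Nat.log 2 h) < x) :
    ∃ p ∈ x.primeFactors, h ≤ p ^ (x.factorization p) := by
  by_contra hcon
  push Not at hcon
  have h1 : x ≤ h ^ x.primeFactors.card := by
    calc x = ∏ p ∈ x.primeFactors, p ^ (x.factorization p) := by
          have := Nat.prod_factorization_pow_eq_self hx.ne'
          rw [Finsupp.prod, Nat.support_factorization] at this
          exact this.symm
      _ ≤ ∏ _p ∈ x.primeFactors, h := Finset.prod_le_prod' (fun p hp => (hcon p hp).le)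
      _ = h ^ x.primeFactors.card := by rw [Finset.prod_const]
  have h2 : 2 ^ x.primeFactors.card ≤ h := by
    calc 2 ^ x.primeFactors.card = ∏ _p ∈ x.primeFactors, 2 := by rw [Finset.prod_const]
      _ ≤ ∏ p ∈ x.primeFactors, p :=
          Finset.prod_le_prod' (fun p hp => (Nat.prime_of_mem_primeFactors hp).two_le)
      _ ≤ h := hr
  have h3 : x.primeFactors.card ≤ Nat.log 2 h := Nat.le_log_of_pow_le (by norm_num) h2
  have hh : 0 < h := by
    have : 0 < 2 ^ x.primeFactors.card := by positivity
    omega
  have h4 : h ^ x.primeFactors.card ≤ h ^ (Nat.log 2 h) := Nat.pow_le_pow_right hh h3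
  omega

lemma odd_count (h : ℕ) : ((Finset.range (h + 1)).filter (fun n => n % 2 = 1)).card
    = (h + 1) / 2 := by
  induction h with
  | zero => rfl
  | succ h ih =>
    rw [Finset.range_add_one, Finset.filter_insert]
    split_ifs with hc
    · rw [Finset.card_insert_of_notMem (by simp), ih]; omega
    · rw [ih]; omega

lemma prime_count (h : ℕ) :
    ((Finset.range (h + 1)).filter (fun n => n.Prime)).card ≤ (h + 1) / 2 + 1 := by
  have h1 : (Finset.range (h + 1)).filter (fun n => n.Prime)
      ⊆ insert 2 ((Finset.range (h + 1)).filter (fun n => n % 2 = 1)) := by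
    intro p hp
    rw [Finset.mem_filter] at hp
    rw [Finset.mem_insert, Finset.mem_filter]
    rcases hp.2.eq_two_or_odd with h | h
    · left; exact h
    · right; exact ⟨hp.1, h⟩
  calc _ ≤ (insert 2 ((Finset.range (h + 1)).filter (fun n => n % 2 = 1))).card :=
        Finset.card_le_card h1
    _ ≤ ((Finset.range (h + 1)).filter (fun n => n % 2 = 1)).card + 1 := Finset.card_insert_le _ _
    _ = (h + 1) / 2 + 1 := by rw [odd_count]

/-- few elements of an interval of length `h` have radical at most `h` -/
lemma small_rad_card (n h : ℕ) (hn : h ^ (Nat.log 2 h) < n) :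
    ((Finset.Ico n (n + h)).filter (fun x => rad x ≤ h)).card ≤ (h + 1) / 2 + 1 := by
  classical
  have hn0 : 0 < n := by omega
  -- choose the prime
  have hex : ∀ x ∈ (Finset.Ico n (n + h)).filter (fun x => rad x ≤ h),
      ∃ p ∈ x.primeFactors, h ≤ p ^ (x.factorization p) := by
    intro x hx
    rw [Finset.mem_filter, Finset.mem_Ico] at hx
    exact exists_large_pp (by omega) hx.2 (by omega)
  choose! φ hφ1 hφ2 using hex
  refine le_trans ?_ (prime_count h)
  apply Finset.card_le_card_of_injOn φ
  · intro x hx
    have hx' : x ∈ (Finset.Ico n (n + h)).filter (fun x => rad x ≤ h) := by simpa using hx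
    have h1 := hφ1 x hx'
    have h2 := le_rad_of_mem h1
    have h3 : rad x ≤ h := (Finset.mem_filter.1 hx').2
    simp only [Finset.coe_filter, Finset.mem_range, Set.mem_ofPred_eq]
    exact ⟨by omega, Nat.prime_of_mem_primeFactors h1⟩
  · have key : ∀ x y : ℕ, x ∈ (Finset.Ico n (n + h)).filter (fun x => rad x ≤ h) →
        y ∈ (Finset.Ico n (n + h)).filter (fun x => rad x ≤ h) → φ x = φ y →
        x.factorization (φ x) ≤ y.factorization (φ x) → x = y := by
      intro x y hx hy hxy hle
      have h1 : φ x ^ (x.factorization (φ x)) ∣ x := Nat.ordProj_dvd x (φ x)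
      have h2 : φ x ^ (x.factorization (φ x)) ∣ y :=
        (pow_dvd_pow _ hle).trans (Nat.ordProj_dvd y (φ x))
      have h3 := hφ2 x hx
      have hx2 := Finset.mem_Ico.1 (Finset.mem_filter.1 hx).1
      have hy2 := Finset.mem_Ico.1 (Finset.mem_filter.1 hy).1
      by_contra hne
      rcases lt_or_gt_of_ne hne with hlt | hlt
      · have h4 := Nat.dvd_sub h2 h1
        have h5 := Nat.le_of_dvd (by omega) h4
        omega
      · have h4 := Nat.dvd_sub h1 h2
        have h5 := Nat.le_of_dvd (by omega) h4
        omega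
    intro x hx y hy hxy
    have hx' : x ∈ (Finset.Ico n (n + h)).filter (fun x => rad x ≤ h) := by simpa using hx
    have hy' : y ∈ (Finset.Ico n (n + h)).filter (fun x => rad x ≤ h) := by simpa using hy
    rcases le_total (x.factorization (φ x)) (y.factorization (φ x)) with hle | hle
    · exact key x y hx' hy' hxy hle
    · rw [hxy] at hle
      exact (key y x hy' hx' hxy.symm hle).symm

/-- elements with a large radical are distinguished by their radicals -/
lemma rad_inj (n h x y : ℕ) (hx : x ∈ Finset.Ico n (n + h)) (hy : y ∈ Finset.Ico n (n + h))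
    (hxr : h < rad x) (hxy : rad x = rad y) : x = y := by
  rw [Finset.mem_Ico] at hx hy
  by_contra hne
  rcases lt_or_gt_of_ne hne with hlt | hlt
  · have h4 := Nat.dvd_sub (hxy ▸ rad_dvd y) (rad_dvd x)
    have h5 := Nat.le_of_dvd (by omega) h4
    omega
  · have h4 := Nat.dvd_sub (rad_dvd x) (hxy ▸ rad_dvd y)
    have h5 := Nat.le_of_dvd (by omega) h4
    omega

/-- many elements have a large radical -/
lemma large_rad_card (n h : ℕ) (hn : h ^ (Nat.log 2 h) < n) :
    h ≤ 2 * ((Finset.Ico n (n + h)).filter (fun x => h < rad x)).card + 3 := by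
  have h1 := small_rad_card n h hn
  have h2 := Finset.card_filter_add_card_filter_not (s := Finset.Ico n (n + h))
    (fun x => rad x ≤ h)
  rw [Nat.card_Ico] at h2
  have h3 : (Finset.Ico n (n + h)).filter (fun x => ¬ rad x ≤ h)
      = (Finset.Ico n (n + h)).filter (fun x => h < rad x) := by
    apply Finset.filter_congr
    intro x _
    exact not_le
  rw [h3] at h2
  omega

end Pool.Agent.Work.MP_b928c0_nt
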