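import Pool.Agent.Work.MP_b928c0_nt.Count
import Pool.Agent.Work.MP_b928c0_nt.Rad

namespace Pool.Agent.Work.MP_b928c0_nt

/-- number of digits at scale `i` -/
def dg (M i : ℕ) : ℕ := Nat.log M (i ^ 2) + 1

lemma dig_eq (M n : ℕ) : dig M n = dg M (Nat.log 2 n) := rfl

/-- block length at scale `i` -/
noncomputable def bl (M m i : ℕ) : ℕ := ⌈((4 * i + 12 : ℕ) : ℝ) * ((M : ℝ) / m) ^ (dg M i)⌉₊

lemma bl_ge (M m i : ℕ) : ((4 * i + 12 : ℕ) : ℝ) * ((M : ℝ) / m) ^ (dg M i) ≤ bl M m i :=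
  Nat.le_ceil _

lemma bl_le (M m i : ℕ) (hM : 2 ≤ M) (hm : 1 ≤ m) (hi : 1 ≤ i) :
    bl M m i ≤ (4 * i + 12) * (M * i ^ 2) := by
  unfold bl
  apply Nat.ceil_le.2
  have hm' : (1 : ℝ) ≤ m := by exact_mod_cast hm
  have hM' : (2 : ℝ) ≤ M := by exact_mod_cast hM
  have h1 : ((M : ℝ) / m) ^ (dg M i) ≤ (M : ℝ) ^ (dg M i) := by
    apply pow_le_pow_left₀ (by positivity)
    apply div_le_self (by positivity) hm'
  have h2 : M ^ (dg M i) ≤ M * i ^ 2 := by
    unfold dg
    rw [pow_succ']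
    apply Nat.mul_le_mul_left
    exact Nat.pow_log_le_self M (by positivity)
  have h3 : (M : ℝ) ^ (dg M i) ≤ ((M * i ^ 2 : ℕ) : ℝ) := by exact_mod_cast h2
  have h4 : ((M : ℝ) / m) ^ (dg M i) ≤ ((M * i ^ 2 : ℕ) : ℝ) := h1.trans h3
  calc ((4 * i + 12 : ℕ) : ℝ) * ((M : ℝ) / m) ^ (dg M i)
      ≤ ((4 * i + 12 : ℕ) : ℝ) * ((M * i ^ 2 : ℕ) : ℝ) :=
        mul_le_mul_of_nonneg_left h4 (by positivity)
    _ = (((4 * i + 12) * (M * i ^ 2) : ℕ) : ℝ) := by push_cast; ring

lemma aux_pow (L : ℕ) (hL : 13 ≤ L) : 16 * L ^ 2 < 2 ^ (L - 1) := by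
  induction L, hL using Nat.le_induction with
  | base => norm_num
  | succ L hL ih =>
    have h1 : L + 1 - 1 = (L - 1) + 1 := by omega
    have h2 : 2 ^ (L + 1 - 1) = 2 * 2 ^ (L - 1) := by rw [h1, pow_succ']
    rw [h2]
    have h3 : 16 * (L + 1) ^ 2 ≤ 2 * (16 * L ^ 2) := by nlinarith
    omega

/-- for large `i` the block length is small compared to `2 ^ i` in the required sense -/
lemma bl_small (M m : ℕ) (hM : 2 ≤ M) (hm : 1 ≤ m) (i : ℕ) (hi1 : 5 * M ≤ i) (hi2 : 2 ^ 13 ≤ i) :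
    (bl M m i) ^ (Nat.log 2 (bl M m i)) < 2 ^ i ∧ bl M m i ≤ 2 ^ i := by
  have h0 : 1 ≤ i := by omega
  have h1 := bl_le M m i hM hm h0
  have h2 : (4 * i + 12) * (M * i ^ 2) ≤ i ^ 4 := by
    have h3 : 4 * i + 12 ≤ 5 * i := by omega
    calc (4 * i + 12) * (M * i ^ 2) ≤ (5 * i) * (M * i ^ 2) := Nat.mul_le_mul_right _ h3
      _ = (5 * M) * i ^ 3 := by ring
      _ ≤ i * i ^ 3 := Nat.mul_le_mul_right _ hi1
      _ = i ^ 4 := by ring
  set L := Nat.log 2 i + 1 with hL
  have h4 : i < 2 ^ L := Nat.lt_pow_succ_log_self (by norm_num) i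
  have h5 : 2 ^ (L - 1) ≤ i := by
    rw [hL]
    simp only [Nat.add_sub_cancel]
    exact Nat.pow_log_le_self 2 (by omega)
  have hL13 : 13 ≤ L := by
    by_contra hcon
    push Not at hcon
    have : 2 ^ L ≤ 2 ^ 12 := Nat.pow_le_pow_right (by norm_num) (by omega)
    have h7 : (2 : ℕ) ^ 12 ≤ 2 ^ 13 := by norm_num
    omega
  have h6 := aux_pow L hL13
  have h7 : bl M m i < 2 ^ (4 * L) := by
    calc bl M m i ≤ i ^ 4 := h1.trans h2
      _ < (2 ^ L) ^ 4 := Nat.pow_lt_pow_left h4 (by norm_num)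
      _ = 2 ^ (4 * L) := by rw [← pow_mul]; congr 1; ring
  have h8 : Nat.log 2 (bl M m i) ≤ 4 * L := by
    rcases Nat.eq_zero_or_pos (bl M m i) with hz | hz
    · rw [hz]; simp
    · exact (Nat.log_lt_of_lt_pow hz.ne' h7).le
  have h9 : 16 * L ^ 2 < i := lt_of_lt_of_le h6 h5
  constructor
  · calc (bl M m i) ^ (Nat.log 2 (bl M m i)) ≤ (2 ^ (4 * L)) ^ (Nat.log 2 (bl M m i)) :=
          Nat.pow_le_pow_left h7.le _
      _ ≤ (2 ^ (4 * L)) ^ (4 * L) := Nat.pow_le_pow_right (by positivity) h8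
      _ = 2 ^ (16 * L ^ 2) := by rw [← pow_mul]; congr 1; ring
      _ < 2 ^ i := Nat.pow_lt_pow_right (by norm_num) h9
  · calc bl M m i ≤ 2 ^ (4 * L) := h7.le
      _ ≤ 2 ^ i := Nat.pow_le_pow_right (by norm_num) (by nlinarith)

lemma sum_inv (K : ℕ) (hK : 1 ≤ K) :
    ∑ n ∈ Finset.range K, (1 : ℝ) / (n * (n + 1)) ≤ 1 - 1 / K := by
  induction K, hK using Nat.le_induction with
  | base => simp
  | succ K hK ih =>
    rw [Finset.sum_range_succ]
    have hK' : (0 : ℝ) < K := by exact_mod_cast hK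
    have : (1 : ℝ) / (K * (K + 1)) = 1 / K - 1 / (K + 1) := by field_simp; ring
    rw [this]
    push_cast
    linarith

/-- Finite existence statement. -/
lemma exist_fin (M : ℕ) [hM : Fact M.Prime] (D : Finset (ZMod M)) (hD : 1 ≤ D.card) (i₀ : ℕ)
    (hi₀ : ∀ i, i₀ ≤ i → (bl M D.card i) ^ (Nat.log 2 (bl M D.card i)) < 2 ^ i) (K : ℕ) :
    ∃ t : ℕ → ℕ, ∀ n < K, i₀ ≤ Nat.log 2 n →
      n + bl M D.card (Nat.log 2 n) ≤ 2 ^ (Nat.log 2 n + 1) →
      ∃ x ∈ Finset.Ico n (n + bl M D.card (Nat.log 2 n)), x ∈ Sel M D t := by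
  classical
  rcases Nat.eq_zero_or_pos K with hK0 | hK0
  · exact ⟨fun _ => 0, fun n hn => by omega⟩
  have hMpos : (0 : ℝ) < M := by exact_mod_cast hM.out.pos
  have hDpos : (0 : ℝ) < D.card := by exact_mod_cast hD
  set Kc := 2 * K with hKc
  set E := dig M (2 * K) with hE
  have hNpos : 0 < M ^ E := Nat.pow_pos hM.out.pos
  set good : ℕ → Prop := fun n => n < K ∧ i₀ ≤ Nat.log 2 n ∧
    n + bl M D.card (Nat.log 2 n) ≤ 2 ^ (Nat.log 2 n + 1) ∧ 0 < n with hgood
  set W : ℕ → Finset ℕ := fun n => (Finset.Ico n (n + bl M D.card (Nat.log 2 n))).filter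
    (fun x => bl M D.card (Nat.log 2 n) < rad x) with hW
  set Bad : ℕ → Finset (Fin Kc → Fin (M ^ E)) := fun n =>
    (Finset.univ : Finset (Fin Kc → Fin (M ^ E))).filter
      (fun t => ∀ x ∈ W n, x ∉ Sel M D (ext t)) with hBad
  have hbound : ∀ n, good n → ((Bad n).card : ℝ)
      ≤ ((M : ℝ) ^ E) ^ Kc * (1 / (n * (n + 1))) := by
    intro n hn
    obtain ⟨hnK, hni, hn2, hn0⟩ := hn
    set i := Nat.log 2 n with hi
    set h := bl M D.card i with hh
    have hlow : 2 ^ i ≤ n := Nat.pow_log_le_self 2 hn0.ne'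
    have hupp : n < 2 ^ (i + 1) := Nat.lt_pow_succ_log_self (by norm_num) n
    have hmemx : ∀ x ∈ W n, n ≤ x ∧ x < n + h ∧ h < rad x := by
      intro x hx
      rw [hW] at hx
      simp only [Finset.mem_filter, Finset.mem_Ico] at hx
      exact ⟨hx.1.1, hx.1.2, hx.2⟩
    have hx2K : ∀ x ∈ W n, x < Kc := by
      intro x hx
      obtain ⟨h1, h2, _⟩ := hmemx x hx
      have : x < 2 ^ (i + 1) := by omega
      rw [pow_succ] at this
      omega
    have hlogx : ∀ x ∈ W n, Nat.log 2 x = i := by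
      intro x hx
      obtain ⟨h1, h2, _⟩ := hmemx x hx
      rw [Nat.log_eq_iff (Or.inr ⟨by norm_num, by omega⟩)]
      exact ⟨by omega, by omega⟩
    have hb := count_bad M D Kc E (dg M i) (W n)
      (fun x hx => by obtain ⟨h1, _, _⟩ := hmemx x hx; omega)
      (fun x hx => by
        have h1 := hx2K x hx
        obtain ⟨h2, _, _⟩ := hmemx x hx
        exact lt_of_le_of_lt (rad_le (by omega)) h1)
      (fun x hx => by rw [dig_eq, hlogx x hx])
      (by
        rw [hE]
        show dig M n ≤ dig M (2 * K)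
        exact dig_mono M (by omega))
      (fun x hx y hy hxy => by
        obtain ⟨h1, h2, h3⟩ := hmemx x hx
        obtain ⟨h4, h5, h6⟩ := hmemx y hy
        exact rad_inj n h x y (Finset.mem_Ico.2 ⟨h1, h2⟩) (Finset.mem_Ico.2 ⟨h4, h5⟩) h3 hxy)
    refine hb.trans ?_
    apply mul_le_mul_of_nonneg_left _ (by positivity)
    set β : ℝ := ((D.card : ℝ) / M) ^ (dg M i) with hβ
    have hβpos : 0 < β := by rw [hβ]; positivity
    have hDM : (D.card : ℝ) ≤ M := by
      have := Finset.card_le_univ D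
      rw [ZMod.card] at this
      exact_mod_cast this
    have hβ1 : β ≤ 1 := by
      rw [hβ]
      apply pow_le_one₀ (by positivity)
      rw [div_le_one hMpos]; exact hDM
    have hcard : (h : ℝ) ≤ 2 * ((W n).card : ℝ) + 3 := by
      have := large_rad_card n h (lt_of_lt_of_le (hi₀ i hni) hlow)
      exact_mod_cast this
    have hhβ : ((4 * i + 12 : ℕ) : ℝ) ≤ h * β := by
      have h1 := bl_ge M D.card i
      have h2 : ((M : ℝ) / D.card) ^ (dg M i) * β = 1 := by
        rw [hβ, ← mul_pow]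
        have : (M : ℝ) / D.card * (D.card / M) = 1 := by field_simp
        rw [this, one_pow]
      calc ((4 * i + 12 : ℕ) : ℝ)
          = ((4 * i + 12 : ℕ) : ℝ) * ((M : ℝ) / D.card) ^ (dg M i) * β := by
            rw [mul_assoc, h2, mul_one]
        _ ≤ h * β := mul_le_mul_of_nonneg_right h1 hβpos.le
    have hexp : (2 * i + 4 : ℝ) ≤ β * (W n).card := by
      push_cast at hhβ
      nlinarith
    calc (1 - β) ^ (W n).card ≤ (Real.exp (-β)) ^ (W n).card := by
          apply pow_le_pow_left₀ (by linarith)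
          have := Real.add_one_le_exp (-β)
          linarith
      _ = Real.exp (-(β * (W n).card)) := by
          rw [← Real.exp_nat_mul]; congr 1; ring
      _ ≤ Real.exp (-(2 * i + 4 : ℝ)) := by
          apply Real.exp_le_exp.2; linarith
      _ ≤ 1 / (n * (n + 1)) := by
          rw [Real.exp_neg, one_div]
          apply inv_anti₀
          · have : (0 : ℝ) < n := by exact_mod_cast hn0
            positivity
          · have h1 : (n : ℝ) * (n + 1) ≤ 2 ^ (2 * i + 2) := by
              have h2 : n * (n + 1) ≤ 2 ^ (i + 1) * 2 ^ (i + 1) :=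
                Nat.mul_le_mul hupp.le hupp
              have h3 : (2 : ℕ) ^ (i + 1) * 2 ^ (i + 1) = 2 ^ (2 * i + 2) := by
                rw [← pow_add]; congr 1; ring
              rw [h3] at h2
              exact_mod_cast h2
            have h4 : (2 : ℝ) ^ (2 * i + 2) ≤ Real.exp (2 * i + 4 : ℝ) := by
              have h5 : (2 : ℝ) ≤ Real.exp 1 := by
                have := Real.add_one_le_exp (1 : ℝ)
                linarith
              calc (2 : ℝ) ^ (2 * i + 2) ≤ (Real.exp 1) ^ (2 * i + 2) :=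
                    pow_le_pow_left₀ (by norm_num) h5 _
                _ = Real.exp (2 * i + 2 : ℝ) := by
                    rw [← Real.exp_nat_mul]; congr 1; push_cast; ring
                _ ≤ Real.exp (2 * i + 4 : ℝ) := by
                    apply Real.exp_le_exp.2; linarith
            linarith
  -- union bound
  have hunion : (((Finset.range K).filter good).biUnion Bad).card
      < (Finset.univ : Finset (Fin Kc → Fin (M ^ E))).card := by
    have h1 : ((((Finset.range K).filter good).biUnion Bad).card : ℝ)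
        ≤ ((M : ℝ) ^ E) ^ Kc * (1 - 1 / K) := by
      calc ((((Finset.range K).filter good).biUnion Bad).card : ℝ)
          ≤ ∑ n ∈ (Finset.range K).filter good, ((Bad n).card : ℝ) := by
            exact_mod_cast Finset.card_biUnion_le
        _ ≤ ∑ n ∈ (Finset.range K).filter good, ((M : ℝ) ^ E) ^ Kc * (1 / (n * (n + 1))) := by
            apply Finset.sum_le_sum
            intro n hn
            exact hbound n (Finset.mem_filter.1 hn).2
        _ ≤ ∑ n ∈ Finset.range K, ((M : ℝ) ^ E) ^ Kc * (1 / (n * (n + 1))) := by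
            apply Finset.sum_le_sum_of_subset_of_nonneg (Finset.filter_subset _ _)
            intro n _ _
            positivity
        _ = ((M : ℝ) ^ E) ^ Kc * ∑ n ∈ Finset.range K, (1 : ℝ) / (n * (n + 1)) := by
            rw [Finset.mul_sum]
        _ ≤ ((M : ℝ) ^ E) ^ Kc * (1 - 1 / K) :=
            mul_le_mul_of_nonneg_left (sum_inv K hK0) (by positivity)
    have h2 : ((Finset.univ : Finset (Fin Kc → Fin (M ^ E))).card : ℝ) = ((M : ℝ) ^ E) ^ Kc := by
      rw [Finset.card_univ, Fintype.card_fun, Fintype.card_fin, Fintype.card_fin]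
      push_cast; rfl
    have h3 : ((M : ℝ) ^ E) ^ Kc * (1 - 1 / K) < ((M : ℝ) ^ E) ^ Kc := by
      have h4 : (0 : ℝ) < ((M : ℝ) ^ E) ^ Kc := by positivity
      have h5 : (0 : ℝ) < 1 / K := by
        have : (0 : ℝ) < K := by exact_mod_cast hK0
        positivity
      nlinarith
    have h6 : ((((Finset.range K).filter good).biUnion Bad).card : ℝ)
        < ((Finset.univ : Finset (Fin Kc → Fin (M ^ E))).card : ℝ) := by
      rw [h2]; linarith
    exact_mod_cast h6
  obtain ⟨t, _, ht⟩ := Finset.exists_mem_notMem_of_card_lt_card hunion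
  refine ⟨ext t, ?_⟩
  intro n hnK hni hn2
  by_cases hn0 : 0 < n
  · by_contra hcon
    push Not at hcon
    apply ht
    rw [Finset.mem_biUnion]
    refine ⟨n, Finset.mem_filter.2 ⟨Finset.mem_range.2 hnK, hnK, hni, hn2, hn0⟩, ?_⟩
    rw [hBad]
    simp only [Finset.mem_filter, Finset.mem_univ, true_and]
    intro x hx
    exact hcon x (Finset.mem_filter.1 hx).1
  · exfalso
    have hn : n = 0 := by omega
    subst hn
    simp only [Nat.log_zero_right, zero_add] at hn2 hni
    have h1 := bl_ge M D.card 0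
    have h2 : (12 : ℝ) ≤ bl M D.card 0 := by
      refine le_trans ?_ h1
      have h3 : (1 : ℝ) ≤ ((M : ℝ) / D.card) ^ (dg M 0) := by
        apply one_le_pow₀
        rw [one_le_div hDpos]
        have := Finset.card_le_univ D
        rw [ZMod.card] at this
        exact_mod_cast this
      push_cast
      linarith
    have h4 : (bl M D.card 0 : ℝ) ≤ 2 := by exact_mod_cast hn2
    linarith

end Pool.Agent.Work.MP_b928c0_nt
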