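import Pool.Agent.Work.MP_b928c0_nt.Quad

namespace Pool.Agent.Work.MP_b928c0_nt

/-- sum of the squares of the exponents -/
def Q (n : ℕ) : ℕ := ∑ p ∈ n.primeFactors, (n.factorization p) ^ 2

/-- the radical -/
def rad (n : ℕ) : ℕ := ∏ p ∈ n.primeFactors, p

/-- number of digits tested -/
def dig (M n : ℕ) : ℕ := Nat.log M ((Nat.log 2 n) ^ 2) + 1

/-- the selected set: the lowest `dig M n` digits in base `M` of `Q n + t (rad n)` lie
in `D` -/
def Sel (M : ℕ) (D : Finset (ZMod M)) (t : ℕ → ℕ) : Set ℕ :=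
  {n | 0 < n ∧ ∀ e < dig M n, (((Q n + t (rad n)) / M ^ e : ℕ) : ZMod M) ∈ D}

lemma dig_mono (M : ℕ) {x y : ℕ} (h : x ≤ y) : dig M x ≤ dig M y := by
  unfold dig
  have h1 : Nat.log 2 x ≤ Nat.log 2 y := Nat.log_mono_right h
  have h2 : (Nat.log 2 x) ^ 2 ≤ (Nat.log 2 y) ^ 2 := Nat.pow_le_pow_left h1 2
  have h3 := Nat.log_mono_right (b := M) h2
  omega

lemma sum_factorization_le (n : ℕ) (hn : n ≠ 0) :
    ∑ p ∈ n.primeFactors, n.factorization p ≤ Nat.log 2 n := by
  apply Nat.le_log_of_pow_le (by norm_num)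
  calc 2 ^ (∑ p ∈ n.primeFactors, n.factorization p)
      = ∏ p ∈ n.primeFactors, 2 ^ (n.factorization p) := by
        rw [Finset.prod_pow_eq_pow_sum]
    _ ≤ ∏ p ∈ n.primeFactors, p ^ (n.factorization p) := by
        apply Finset.prod_le_prod'
        intro p hp
        exact Nat.pow_le_pow_left (Nat.prime_of_mem_primeFactors hp).two_le _
    _ = n := by
        have := Nat.prod_factorization_pow_eq_self hn
        rw [Finsupp.prod, Nat.support_factorization] at this
        exact this

lemma kill (M : ℕ) [hM : Fact M.Prime] (D : Finset (ZMod M)) (hD : QFree M D)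
    (t : ℕ → ℕ) (b : ℕ → ℕ) (hb : ∀ j ≤ M + 1, b j ∈ Sel M D t)
    (hgp : ∀ j, j + 2 ≤ M + 1 → b j * b (j + 2) = b (j + 1) ^ 2) (h01 : b 0 < b 1) : False := by
  have hM2 : 2 ≤ M := hM.out.two_le
  have hpos : ∀ j ≤ M + 1, b j ≠ 0 := fun j hj => (hb j hj).1.ne'
  -- exponents
  set f : ℕ → ℕ → ℕ := fun j p => (b j).factorization p with hf
  have hrec : ∀ p j, j + 2 ≤ M + 1 → f j p + f (j + 2) p = 2 * f (j + 1) p := by
    intro p j hj
    have h := congrArg (fun n => Nat.factorization n p) (hgp j hj)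
    rw [Nat.factorization_mul (hpos j (by omega)) (hpos (j + 2) hj), Nat.factorization_pow] at h
    simpa [hf] using h
  have hlin2 : ∀ p j, j + 1 ≤ M + 1 →
      (f j p : ℤ) = f 0 p + j * ((f 1 p : ℤ) - f 0 p) ∧
      (f (j + 1) p : ℤ) = f 0 p + (j + 1) * ((f 1 p : ℤ) - f 0 p) := by
    intro p j
    induction j with
    | zero => intro _; constructor <;> simp
    | succ j ih =>
      intro hj
      have h1 := ih (by omega)
      have h2 := hrec p j (by omega)
      have h3 : (f j p : ℤ) + f (j + 2) p = 2 * f (j + 1) p := by exact_mod_cast h2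
      refine ⟨by push_cast; exact h1.2, ?_⟩
      have h4 : (f (j + 1 + 1) p : ℤ) = 2 * f (j + 1) p - f j p := by
        have : j + 1 + 1 = j + 2 := rfl
        rw [this]; linarith
      rw [h4, h1.1, h1.2]; push_cast; ring
  have hlin : ∀ p j, j ≤ M + 1 → (f j p : ℤ) = f 0 p + j * ((f 1 p : ℤ) - f 0 p) := by
    intro p j hj
    rcases Nat.eq_zero_or_pos j with h | h
    · subst h; simp
    · obtain ⟨i, rfl⟩ : ∃ i, j = i + 1 := ⟨j - 1, by omega⟩
      have := (hlin2 p i hj).2
      push_cast; exact this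
  -- increasing
  have hincr : ∀ j, j + 1 ≤ M + 1 → b j < b (j + 1) := by
    intro j
    induction j with
    | zero => intro _; exact h01
    | succ j ih =>
      intro hj
      have h1 := ih (by omega)
      have h2 := hgp j (by omega)
      have h3 : 0 < b j := Nat.pos_of_ne_zero (hpos j (by omega))
      by_contra hcon
      push Not at hcon
      have h4 : b j * b (j + 2) < b (j + 1) ^ 2 := by
        rw [pow_two]
        calc b j * b (j + 2) ≤ b j * b (j + 1) := Nat.mul_le_mul_left _ hcon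
          _ < b (j + 1) * b (j + 1) := Nat.mul_lt_mul_of_pos_right h1 (by omega)
      omega
  have hle1 : ∀ j, 1 ≤ j → j ≤ M + 1 → b 1 ≤ b j := by
    intro j hj1
    induction j, hj1 using Nat.le_induction with
    | base => intro _; exact le_refl _
    | succ j hj ih =>
      intro hj2
      exact (ih (by omega)).trans (hincr j hj2).le
  -- the set of primes
  set P : Finset ℕ := (b 0).primeFactors ∪ (b 1).primeFactors with hP
  have hmemPF : ∀ j ≤ M + 1, ∀ p, p ∈ (b j).primeFactors ↔ f j p ≠ 0 := by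
    intro j hj p
    rw [← Nat.support_factorization, Finsupp.mem_support_iff]
  have hPsub : ∀ j ≤ M + 1, (b j).primeFactors ⊆ P := by
    intro j hj p hp
    rw [hmemPF j hj] at hp
    rw [hP, Finset.mem_union, hmemPF 0 (by omega), hmemPF 1 (by omega)]
    by_contra hcon
    push Not at hcon
    apply hp
    have := hlin p j hj
    rw [hcon.1, hcon.2] at this
    simpa using this
  have hQ : ∀ j ≤ M + 1, (Q (b j) : ℤ) = ∑ p ∈ P, (f j p : ℤ) ^ 2 := by
    intro j hj
    have h1 : Q (b j) = ∑ p ∈ P, (f j p) ^ 2 := by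
      unfold Q
      apply Finset.sum_subset (hPsub j hj)
      intro p _ hp
      rw [hmemPF j hj] at hp
      push Not at hp
      simp only [hf] at hp
      rw [hp]; norm_num
    rw [h1]; push_cast; rfl
  -- the radical
  have hradset : ∀ j, 1 ≤ j → j ≤ M → (b j).primeFactors = (b 1).primeFactors := by
    intro j hj1 hj2
    ext p
    rw [hmemPF j (by omega), hmemPF 1 (by omega)]
    have e0 : (0 : ℤ) ≤ f 0 p := by positivity
    have e1 := hlin p 1 (by omega)
    have ej := hlin p j (by omega)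
    have eM := hlin p (M + 1) (by omega)
    have eM0 : (0 : ℤ) ≤ f (M + 1) p := by positivity
    set ε : ℤ := (f 1 p : ℤ) - f 0 p with hε
    have hj1' : (1 : ℤ) ≤ j := by exact_mod_cast hj1
    have hj2' : (j : ℤ) ≤ M := by exact_mod_cast hj2
    push_cast at eM
    constructor
    · intro hne h0
      apply hne
      have h1 : (f 0 p : ℤ) + ε = 0 := by rw [hε, h0]; ring
      have h2 : ε ≤ 0 := by linarith
      have h3 : 0 ≤ ε := by
        by_contra hcon
        push Not at hcon
        have : (M : ℤ) * ε < 0 := mul_neg_of_pos_of_neg (by exact_mod_cast hM.out.pos) hcon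
        nlinarith
      have h4 : ε = 0 := le_antisymm h2 h3
      have h5 : (f 0 p : ℤ) = 0 := by linarith
      have : (f j p : ℤ) = 0 := by rw [ej, h4, h5]; ring
      exact_mod_cast this
    · intro hne h0
      apply hne
      have h0' : (f j p : ℤ) = 0 := by rw [h0]; rfl
      rw [h0'] at ej
      have h2 : ε ≤ 0 := by
        by_contra hcon
        push Not at hcon
        nlinarith
      have h3 : 0 ≤ ε := by
        by_contra hcon
        push Not at hcon
        have h7 : ((M : ℤ) + 1 - j) * ε < 0 := mul_neg_of_pos_of_neg (by linarith) hcon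
        nlinarith
      have h4 : ε = 0 := le_antisymm h2 h3
      have h5 : (f 0 p : ℤ) = 0 := by rw [h4] at ej; linarith
      have : (f 1 p : ℤ) = 0 := by
        have : (f 1 p : ℤ) = ε + f 0 p := by rw [hε]; ring
        rw [this, h4, h5]; ring
      exact_mod_cast this
  have hrad : ∀ j, 1 ≤ j → j ≤ M → rad (b j) = rad (b 1) := by
    intro j hj1 hj2
    unfold rad
    rw [hradset j hj1 hj2]
  -- the quadratic polynomial
  set a : ℤ := ∑ p ∈ P, ((f 1 p : ℤ) - f 0 p) ^ 2 with ha
  set β : ℤ := ∑ p ∈ P, 2 * (f 0 p : ℤ) * ((f 1 p : ℤ) - f 0 p) with hβ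
  set c : ℤ := ∑ p ∈ P, (f 0 p : ℤ) ^ 2 + t (rad (b 1)) with hc
  have hpoly : ∀ j : ℕ, 1 ≤ j → j ≤ M →
      ((Q (b j) + t (rad (b j)) : ℕ) : ℤ) = a * j ^ 2 + β * j + c := by
    intro j hj1 hj2
    push_cast
    rw [hQ j (by omega), hrad j hj1 hj2, ha, hβ, hc, Finset.sum_mul, Finset.sum_mul,
      ← add_assoc, ← Finset.sum_add_distrib, ← Finset.sum_add_distrib]
    congr 1
    apply Finset.sum_congr rfl
    intro p _
    rw [hlin p j (by omega)]
    ring
  have ha0 : 0 < a := by
    rw [ha]
    apply Finset.sum_pos'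
    · intro p _; positivity
    · by_contra hcon
      push Not at hcon
      have hall : ∀ p, f 1 p = f 0 p := by
        intro p
        by_cases hp : p ∈ P
        · have h1 := hcon p hp
          have h2 : ((f 1 p : ℤ) - f 0 p) ^ 2 = 0 := le_antisymm h1 (by positivity)
          have h3 : (f 1 p : ℤ) - f 0 p = 0 := by simpa using h2
          have h4 : (f 1 p : ℤ) = f 0 p := by linarith
          exact_mod_cast h4
        · rw [hP, Finset.mem_union, hmemPF 0 (by omega), hmemPF 1 (by omega)] at hp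
          push Not at hp
          rw [hp.1, hp.2]
      have : b 1 = b 0 := by
        apply Nat.factorization_inj (by simpa using hpos 1 (by omega))
          (by simpa using hpos 0 (by omega))
        ext p
        exact hall p
      omega
  have haM : a < (M : ℤ) ^ (dig M (b 1)) := by
    have h1 : a ≤ ∑ p ∈ P, (f 1 p : ℤ) ^ 2 := by
      rw [ha]
      apply Finset.sum_le_sum
      intro p _
      have e0 : (0 : ℤ) ≤ f 0 p := by positivity
      have e1 : (0 : ℤ) ≤ f 1 p := by positivity
      have e2 := hlin p 2 (by omega)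
      have e20 : (0 : ℤ) ≤ f 2 p := by positivity
      push_cast at e2
      have h3 : (f 1 p : ℤ) - f 0 p ≤ f 1 p := by linarith
      have h4 : -(f 1 p : ℤ) ≤ (f 1 p : ℤ) - f 0 p := by linarith
      nlinarith
    have h2 : ∑ p ∈ P, (f 1 p : ℤ) ^ 2 = (∑ p ∈ (b 1).primeFactors, (f 1 p) ^ 2 : ℕ) := by
      rw [← hQ 1 (by omega)]
      rfl
    have h3 : ∑ p ∈ (b 1).primeFactors, (f 1 p) ^ 2 ≤ (Nat.log 2 (b 1)) ^ 2 := by
      calc ∑ p ∈ (b 1).primeFactors, (f 1 p) ^ 2
          ≤ (∑ p ∈ (b 1).primeFactors, f 1 p) ^ 2 := by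
            apply Finset.sum_sq_le_sq_sum_of_nonneg
            intro p _; exact Nat.zero_le _
        _ ≤ (Nat.log 2 (b 1)) ^ 2 :=
            Nat.pow_le_pow_left (sum_factorization_le _ (hpos 1 (by omega))) 2
    have h4 : (Nat.log 2 (b 1)) ^ 2 < M ^ (dig M (b 1)) := by
      unfold dig
      exact Nat.lt_pow_succ_log_self hM.out.one_lt _
    rw [h2] at h1
    have h5 : ((∑ p ∈ (b 1).primeFactors, (f 1 p) ^ 2 : ℕ) : ℤ) < ((M ^ (dig M (b 1)) : ℕ) : ℤ) := by
      exact_mod_cast lt_of_le_of_lt h3 h4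
    push_cast at h5 h1 ⊢
    linarith
  apply digit_kill M D hD (dig M (b 1)) a β c ha0 haM
  intro j hj1 hj2 e he
  rw [← hpoly j hj1 hj2]
  have h1 := (hb j (by omega)).2 e
    (lt_of_lt_of_le he (dig_mono M (hle1 j hj1 (by omega))))
  have h2 : (((Q (b j) + t (rad (b j)) : ℕ) : ℤ) / (M : ℤ) ^ e : ℤ)
      = (((Q (b j) + t (rad (b j))) / M ^ e : ℕ) : ℤ) := by
    push_cast; rfl
  rw [h2, Int.cast_natCast]
  exact h1

end Pool.Agent.Work.MP_b928c0_nt
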