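import Pool.Agent.Work.MP_b928c0_nt.Exist

namespace Pool.Agent.Work.MP_b928c0_nt

open Filter in
lemma exist_set (M : ℕ) [hM : Fact M.Prime] (D : Finset (ZMod M)) (hD : 1 ≤ D.card)
    (hQ : QFree M D) (i₀ : ℕ)
    (hi₀ : ∀ i, i₀ ≤ i → (bl M D.card i) ^ (Nat.log 2 (bl M D.card i)) < 2 ^ i) :
    ∃ A : Set ℕ, (∀ x ∈ A, 0 < x) ∧
      (∀ n, i₀ ≤ Nat.log 2 n → n + bl M D.card (Nat.log 2 n) ≤ 2 ^ (Nat.log 2 n + 1) →
        ∃ x ∈ A, n ≤ x ∧ x < n + bl M D.card (Nat.log 2 n)) ∧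
      (∀ b : ℕ → ℕ, (∀ j ≤ M + 1, b j ∈ A) →
        (∀ j, j + 2 ≤ M + 1 → b j * b (j + 2) = b (j + 1) ^ 2) → b 0 < b 1 → False) := by
  choose t ht using exist_fin M D hD i₀ hi₀
  set U : Ultrafilter ℕ := hyperfilter ℕ with hU
  have hUtop : (U : Filter ℕ) ≤ atTop := by
    rw [← Nat.cofinite_eq_atTop]
    exact hyperfilter_le_cofinite
  refine ⟨{x | ∀ᶠ K in (U : Filter ℕ), x ∈ Sel M D (t K)}, ?_, ?_, ?_⟩
  · intro x hx
    obtain ⟨K, hK⟩ := Filter.Eventually.exists hx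
    exact hK.1
  · intro n hn1 hn2
    have h1 : ∀ᶠ K in (U : Filter ℕ), ∃ x ∈ Finset.Ico n (n + bl M D.card (Nat.log 2 n)),
        x ∈ Sel M D (t K) := by
      have h2 : ∀ᶠ K in (atTop : Filter ℕ), n < K := eventually_gt_atTop n
      filter_upwards [hUtop h2] with K hK
      exact ht K n hK hn1 hn2
    by_contra hcon
    push Not at hcon
    have h3 : ∀ x ∈ Finset.Ico n (n + bl M D.card (Nat.log 2 n)),
        ∀ᶠ K in (U : Filter ℕ), x ∉ Sel M D (t K) := by
      intro x hx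
      rw [Finset.mem_Ico] at hx
      rw [Ultrafilter.eventually_not]
      intro hxA
      exact absurd hx.2 (not_lt.2 (hcon x hxA hx.1))
    have h4 := (Filter.eventually_all_finset _).2 h3
    obtain ⟨K, ⟨x, hx, hxS⟩, hK⟩ := (h1.and h4).exists
    exact hK x hx hxS
  · intro b hb hgp h01
    have h1 : ∀ j ∈ Finset.range (M + 2), ∀ᶠ K in (U : Filter ℕ), b j ∈ Sel M D (t K) := by
      intro j hj
      rw [Finset.mem_range] at hj
      exact hb j (by omega)
    have h2 := (Filter.eventually_all_finset _).2 h1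
    obtain ⟨K, hK⟩ := h2.exists
    exact kill M D hQ (t K) b (fun j hj => hK j (Finset.mem_range.2 (by omega))) hgp h01

lemma seq_exists (A : Set ℕ) (n₀ : ℕ) (H : ℕ → ℕ)
    (h : ∀ n, n₀ ≤ n → ∃ x ∈ A, n < x ∧ x ≤ n + H n) :
    ∃ a : ℕ → ℕ, StrictMono a ∧ (∀ i, a i ∈ A) ∧ (∀ i, n₀ < a i) ∧
      (∀ i, a (i + 1) ≤ a i + H (a i)) := by
  obtain ⟨x₀, hx₀A, hx₀, _⟩ := h n₀ le_rfl
  let S := {n : ℕ // n ∈ A ∧ n₀ < n}
  have hstep : ∀ s : S, ∃ s' : S, s.1 < s'.1 ∧ s'.1 ≤ s.1 + H s.1 := by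
    intro s
    obtain ⟨x, hxA, hx1, hx2⟩ := h s.1 s.2.2.le
    exact ⟨⟨x, hxA, by have := s.2.2; omega⟩, hx1, hx2⟩
  choose g hg1 hg2 using hstep
  let a : ℕ → S := fun i => Nat.rec ⟨x₀, hx₀A, hx₀⟩ (fun _ s => g s) i
  refine ⟨fun i => (a i).1, ?_, ?_, ?_, ?_⟩
  · apply strictMono_nat_of_lt_succ
    intro i
    exact hg1 (a i)
  · intro i; exact (a i).2.1
  · intro i; exact (a i).2.2
  · intro i; exact hg2 (a i)

lemma bl_real (M m : ℕ) (hM : 2 ≤ M) (hm : 1 ≤ m) (hmM : m ≤ M) (i : ℕ) (hi : 1 ≤ i) :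
    (bl M m i : ℝ) ≤ 17 * M * (i : ℝ) ^ (1 + 2 * Real.log ((M : ℝ) / m) / Real.log M) := by
  have hM' : (2 : ℝ) ≤ M := by exact_mod_cast hM
  have hm' : (1 : ℝ) ≤ m := by exact_mod_cast hm
  have hmM' : (m : ℝ) ≤ M := by exact_mod_cast hmM
  have hi' : (1 : ℝ) ≤ i := by exact_mod_cast hi
  have hlM : 0 < Real.log M := Real.log_pos (by linarith)
  set γ : ℝ := Real.log ((M : ℝ) / m) / Real.log M with hγ
  have hγ0 : 0 ≤ γ := by
    rw [hγ]
    apply div_nonneg _ hlM.le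
    apply Real.log_nonneg
    rw [one_le_div (by linarith)]; exact hmM'
  have hbase : (M : ℝ) / m = (M : ℝ) ^ γ := by
    rw [Real.rpow_def_of_pos (by linarith), hγ]
    rw [show Real.log M * (Real.log ((M : ℝ) / m) / Real.log M) = Real.log ((M : ℝ) / m) by
      field_simp]
    rw [Real.exp_log (by positivity)]
  have hpow : ((M : ℝ) / m) ^ (Nat.log M (i ^ 2)) ≤ (i : ℝ) ^ (2 * γ) := by
    rw [hbase, ← Real.rpow_natCast, ← Real.rpow_mul (by linarith), mul_comm γ,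
      Real.rpow_mul (by linarith), Real.rpow_natCast]
    have h1 : (M : ℝ) ^ (Nat.log M (i ^ 2)) ≤ (i : ℝ) ^ 2 := by
      have := Nat.pow_log_le_self M (show i ^ 2 ≠ 0 by positivity)
      exact_mod_cast this
    calc ((M : ℝ) ^ (Nat.log M (i ^ 2))) ^ γ ≤ ((i : ℝ) ^ 2) ^ γ :=
          Real.rpow_le_rpow (by positivity) h1 hγ0
      _ = (i : ℝ) ^ (2 * γ) := by
          rw [← Real.rpow_natCast, ← Real.rpow_mul (by linarith)]; norm_num
  have h1 : (bl M m i : ℝ) ≤ ((4 * i + 12 : ℕ) : ℝ) * ((M : ℝ) / m) ^ (dg M i) + 1 := by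
    unfold bl
    exact (Nat.ceil_lt_add_one (by positivity)).le
  have h2 : ((M : ℝ) / m) ^ (dg M i) ≤ M * (i : ℝ) ^ (2 * γ) := by
    unfold dg
    rw [pow_succ']
    have h3 : (M : ℝ) / m ≤ M := div_le_self (by linarith) hm'
    exact mul_le_mul h3 hpow (by positivity) (by linarith)
  have h4 : ((4 * i + 12 : ℕ) : ℝ) ≤ 16 * i := by push_cast; linarith
  have h5 : (1 : ℝ) ≤ M * (i * (i : ℝ) ^ (2 * γ)) := by
    have h6 : (1 : ℝ) ≤ (i : ℝ) ^ (2 * γ) := Real.one_le_rpow hi' (by positivity)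
    have h7 : (1 : ℝ) ≤ i * (i : ℝ) ^ (2 * γ) := by nlinarith
    nlinarith
  have h8 : (i : ℝ) ^ (1 + 2 * Real.log ((M : ℝ) / m) / Real.log M) = i * (i : ℝ) ^ (2 * γ) := by
    rw [hγ, Real.rpow_add (by linarith), Real.rpow_one]
    congr 2; ring
  rw [h8]
  calc (bl M m i : ℝ) ≤ ((4 * i + 12 : ℕ) : ℝ) * ((M : ℝ) / m) ^ (dg M i) + 1 := h1
    _ ≤ (16 * i) * (M * (i : ℝ) ^ (2 * γ)) + 1 := by
        have := mul_le_mul h4 h2 (by positivity) (by positivity)
        linarith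
    _ ≤ 17 * M * (i * (i : ℝ) ^ (2 * γ)) := by nlinarith

/-- The main theorem, with an explicit `QFree` set. -/
theorem main (M : ℕ) [hM : Fact M.Prime] (D : Finset (ZMod M)) (hD : 1 ≤ D.card)
    (hQ : QFree M D) :
    ∃ (a : ℕ → ℕ) (C : ℝ), StrictMono a ∧ (∀ i, 0 < a i) ∧
      (∀ i, (a (i + 1) : ℝ) - a i ≤
        C * Real.log (a i) ^ (1 + 2 * Real.log ((M : ℝ) / D.card) / Real.log M)) ∧
      ∀ x r : ℝ, x ≠ 0 → r ≠ 0 → r ≠ 1 → r ≠ -1 → ¬ ∀ j < M + 2, ∃ i, (a i : ℝ) = x * r ^ j := by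
  have hM2 : 2 ≤ M := hM.out.two_le
  have hDM : D.card ≤ M := by
    have := Finset.card_le_univ D
    rw [ZMod.card] at this
    exact this
  obtain ⟨m, hm⟩ : ∃ m, m = D.card := ⟨_, rfl⟩
  obtain ⟨i₀, hi₀def⟩ : ∃ i₀, i₀ = 5 * M + 2 ^ 13 := ⟨_, rfl⟩
  have hsmall : ∀ i, i₀ ≤ i → (bl M m i) ^ (Nat.log 2 (bl M m i)) < 2 ^ i ∧ bl M m i ≤ 2 ^ i := by
    intro i hi
    rw [hi₀def] at hi
    exact bl_small M m hM2 (hm ▸ hD) i (by omega) (by omega)
  have hi₀1 : 1 ≤ i₀ := by rw [hi₀def]; have := hM.out.pos; omega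
  clear hi₀def
  obtain ⟨A, hA0, hA1, hA2⟩ := exist_set M D hD hQ i₀ (fun i hi => hm ▸ (hsmall i hi).1)
  rw [← hm] at hD hDM hA1 ⊢
  obtain ⟨H, hH⟩ : ∃ H : ℕ → ℕ, ∀ n, H n = bl M m (Nat.log 2 n) + bl M m (Nat.log 2 n + 1) + 1 :=
    ⟨_, fun _ => rfl⟩
  have hnext : ∀ n, 2 ^ i₀ ≤ n → ∃ x ∈ A, n < x ∧ x ≤ n + H n := by
    intro n hn
    have hn0 : n ≠ 0 := by
      have : 0 < 2 ^ i₀ := by positivity
      omega
    have hHn := hH n
    set i := Nat.log 2 n with hi
    have hii : i₀ ≤ i := Nat.le_log_of_pow_le (by norm_num) hn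
    have hlow : 2 ^ i ≤ n := Nat.pow_log_le_self 2 hn0
    have hupp : n < 2 ^ (i + 1) := Nat.lt_pow_succ_log_self (by norm_num) n
    by_cases hc : n + 1 + bl M m i ≤ 2 ^ (i + 1)
    · by_cases hc2 : n + 1 < 2 ^ (i + 1)
      · have hlog : Nat.log 2 (n + 1) = i := by
          rw [Nat.log_eq_iff (Or.inr ⟨by norm_num, by omega⟩)]
          exact ⟨by omega, hc2⟩
        obtain ⟨x, hxA, hx1, hx2⟩ := hA1 (n + 1) (by rw [hlog]; exact hii)
          (by rw [hlog]; exact hc)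
        rw [hlog] at hx2
        exact ⟨x, hxA, by omega, by omega⟩
      · -- bl = 0, impossible
        exfalso
        have h1 := bl_ge M m i
        have h2 : bl M m i = 0 := by omega
        rw [h2] at h1
        have h3 : (0 : ℝ) < ((4 * i + 12 : ℕ) : ℝ) * ((M : ℝ) / m) ^ (dg M i) := by
          have : (0 : ℝ) < M := by exact_mod_cast hM.out.pos
          have : (0 : ℝ) < m := by exact_mod_cast hD
          positivity
        simp only [Nat.cast_zero] at h1
        linarith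
    · have hlog : Nat.log 2 (2 ^ (i + 1)) = i + 1 := Nat.log_pow (by norm_num) _
      obtain ⟨x, hxA, hx1, hx2⟩ := hA1 (2 ^ (i + 1)) (by rw [hlog]; omega) (by
        rw [hlog, pow_succ 2 (i + 1)]
        have := (hsmall (i + 1) (by omega)).2
        omega)
      rw [hlog] at hx2
      exact ⟨x, hxA, by omega, by omega⟩
  obtain ⟨a, ha1, ha2, ha3, ha4⟩ := seq_exists A (2 ^ i₀) H hnext
  set κ : ℝ := 1 + 2 * Real.log ((M : ℝ) / m) / Real.log M with hκ
  have hMR : (2 : ℝ) ≤ M := by exact_mod_cast hM2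
  have hmR : (1 : ℝ) ≤ m := by exact_mod_cast hD
  have hmMR : (m : ℝ) ≤ M := by exact_mod_cast hDM
  have hκ0 : 0 ≤ κ := by
    rw [hκ]
    have h1 : 0 ≤ Real.log ((M : ℝ) / m) := by
      apply Real.log_nonneg
      rw [one_le_div (by linarith)]; exact hmMR
    have h2 : 0 < Real.log M := Real.log_pos (by linarith)
    positivity
  refine ⟨a, 35 * M * ((2 : ℝ) / Real.log 2) ^ κ, ha1, fun i => hA0 _ (ha2 i), ?_, ?_⟩
  · intro j
    have h1 := ha4 j
    have h2 := ha3 j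
    have hHn := hH (a j)
    set n := a j with hn
    have hn0 : n ≠ 0 := by
      have : 0 < 2 ^ i₀ := by positivity
      omega
    obtain ⟨i, hi⟩ : ∃ i, i = Nat.log 2 n := ⟨_, rfl⟩
    have hii : i₀ ≤ i := by rw [hi]; exact Nat.le_log_of_pow_le (by norm_num) h2.le
    have hi1 : 1 ≤ i := by omega
    rw [← hi] at hHn
    have hlow : 2 ^ i ≤ n := by rw [hi]; exact Nat.pow_log_le_self 2 hn0
    have hl2 : 0 < Real.log 2 := Real.log_pos (by norm_num)
    -- i ≤ log n / log 2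
    have h3 : (i : ℝ) * Real.log 2 ≤ Real.log n := by
      have : ((2 : ℝ) ^ i) ≤ n := by exact_mod_cast hlow
      have h5 := Real.log_le_log (by positivity) this
      rw [Real.log_pow] at h5
      exact h5
    set y : ℝ := 2 / Real.log 2 * Real.log n with hy
    have h4 : (2 : ℝ) * i ≤ y := by
      rw [hy]
      have : (i : ℝ) ≤ Real.log n / Real.log 2 := by
        rw [le_div_iff₀ hl2]; exact h3
      calc (2 : ℝ) * i ≤ 2 * (Real.log n / Real.log 2) := by linarith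
        _ = 2 / Real.log 2 * Real.log n := by ring
    have hi1R : (1 : ℝ) ≤ i := by exact_mod_cast hi1
    have hlogn : 0 ≤ Real.log n := by nlinarith
    have hb1 := bl_real M m hM2 hD hDM i hi1
    have hb2 := bl_real M m hM2 hD hDM (i + 1) (by omega)
    rw [← hκ] at hb1 hb2
    have hc1 : (i : ℝ) ^ κ ≤ y ^ κ :=
      Real.rpow_le_rpow (by positivity) (by linarith) hκ0
    have hc2 : ((i + 1 : ℕ) : ℝ) ^ κ ≤ y ^ κ :=
      Real.rpow_le_rpow (by positivity) (by push_cast; linarith) hκ0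
    have hc3 : (1 : ℝ) ≤ y ^ κ := Real.one_le_rpow (by linarith) hκ0
    have hfin : (a (j + 1) : ℝ) - n ≤ bl M m i + bl M m (i + 1) + 1 := by
      have : (a (j + 1) : ℝ) ≤ n + H n := by exact_mod_cast h1
      have h7 : (H n : ℝ) = bl M m i + bl M m (i + 1) + 1 := by
        rw [hHn]; push_cast; rfl
      linarith
    have hyk : y ^ κ = (2 / Real.log 2) ^ κ * Real.log n ^ κ := by
      rw [hy, Real.mul_rpow (by positivity) hlogn]
    calc (a (j + 1) : ℝ) - n ≤ bl M m i + bl M m (i + 1) + 1 := hfin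
      _ ≤ 17 * M * y ^ κ + 17 * M * y ^ κ + M * y ^ κ := by
          have e1 : (17 : ℝ) * M * (i : ℝ) ^ κ ≤ 17 * M * y ^ κ :=
            mul_le_mul_of_nonneg_left hc1 (by positivity)
          have e2 : (17 : ℝ) * M * ((i + 1 : ℕ) : ℝ) ^ κ ≤ 17 * M * y ^ κ :=
            mul_le_mul_of_nonneg_left hc2 (by positivity)
          have e3 : (1 : ℝ) ≤ M * y ^ κ := by nlinarith
          linarith
      _ = 35 * M * y ^ κ := by ring
      _ = 35 * M * (2 / Real.log 2) ^ κ * Real.log n ^ κ := by rw [hyk]; ring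
  · intro x r hx hr hr1 hrm1 hall
    -- extract natural numbers
    have hall' : ∀ j, ∃ i, j < M + 2 → (a i : ℝ) = x * r ^ j := by
      intro j
      by_cases hj : j < M + 2
      · obtain ⟨i, hi⟩ := hall j hj
        exact ⟨i, fun _ => hi⟩
      · exact ⟨0, fun h => absurd h hj⟩
    choose σ hσ using hall'
    have hpos : ∀ j, (0 : ℝ) < a (σ j) := fun j => by exact_mod_cast hA0 _ (ha2 _)
    have hgp : ∀ j, j + 2 ≤ M + 1 →
        a (σ j) * a (σ (j + 2)) = (a (σ (j + 1))) ^ 2 := by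
      intro j hj
      have h1 := hσ j (by omega)
      have h2 := hσ (j + 1) (by omega)
      have h3 := hσ (j + 2) (by omega)
      have : (a (σ j) : ℝ) * a (σ (j + 2)) = (a (σ (j + 1)) : ℝ) ^ 2 := by
        rw [h1, h2, h3]; ring
      exact_mod_cast this
    have hne : a (σ 0) ≠ a (σ 1) := by
      intro heq
      have h0 := hσ 0 (by omega)
      have h1 := hσ 1 (by omega)
      have h2 : x * r ^ 0 = x * r ^ 1 := by
        rw [← h0, ← h1]; exact_mod_cast heq
      have h3 : r ^ 0 = r ^ 1 := mul_left_cancel₀ hx h2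
      rw [pow_zero, pow_one] at h3
      exact hr1 h3.symm
    rcases lt_or_gt_of_ne hne with hlt | hlt
    · exact hA2 (fun j => a (σ j)) (fun j _ => ha2 _) hgp hlt
    · -- reverse the progression
      apply hA2 (fun j => a (σ (M + 1 - j))) (fun j _ => ha2 _)
      · intro j hj
        have h1 := hgp (M + 1 - (j + 2)) (by omega)
        have e1 : M + 1 - (j + 2) + 2 = M + 1 - j := by omega
        have e2 : M + 1 - (j + 2) + 1 = M + 1 - (j + 1) := by omega
        rw [e1, e2] at h1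
        show a (σ (M + 1 - j)) * a (σ (M + 1 - (j + 2))) = a (σ (M + 1 - (j + 1))) ^ 2
        rw [← h1]; ring
      · -- decreasing
        have hdec : ∀ j, j + 1 ≤ M + 1 → a (σ (j + 1)) < a (σ j) := by
          intro j
          induction j with
          | zero => intro _; exact hlt
          | succ j ih =>
            intro hj
            have h1 := ih (by omega)
            have h2 := hgp j (by omega)
            have h3 : 0 < a (σ (j + 1)) := hA0 _ (ha2 _)
            by_contra hcon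
            push Not at hcon
            have h4 : (a (σ (j + 1))) ^ 2 < a (σ j) * a (σ (j + 2)) := by
              rw [pow_two]
              calc a (σ (j + 1)) * a (σ (j + 1)) < a (σ j) * a (σ (j + 1)) :=
                    Nat.mul_lt_mul_of_pos_right h1 h3
                _ ≤ a (σ j) * a (σ (j + 2)) := Nat.mul_le_mul_left _ hcon
            omega
        have h1 := hdec M (by omega)
        show a (σ (M + 1 - 0)) < a (σ (M + 1 - 1))
        simpa using h1

end Pool.Agent.Work.MP_b928c0_nt
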