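import Mathlib

namespace Pool.Agent.Work.MP_b928c0_nt

open Polynomial in
/-- A nonconstant polynomial of degree at most two takes each value at most twice. -/
lemma quad_fiber (p : ℕ) [Fact p.Prime] (a b c y : ZMod p) (h : a ≠ 0 ∨ b ≠ 0) :
    (Finset.univ.filter (fun x : ZMod p => a * x ^ 2 + b * x + c = y)).card ≤ 2 := by
  set P : (ZMod p)[X] := C a * X ^ 2 + C b * X + C (c - y) with hP
  have hP0 : P ≠ 0 := by
    intro h0
    rcases h with h | h
    · apply h
      have := congrArg (fun q => q.coeff 2) h0
      simpa [hP, coeff_X, coeff_C] using this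
    · apply h
      have := congrArg (fun q => q.coeff 1) h0
      simpa [hP, coeff_X, coeff_C, coeff_X_pow] using this
  have hdeg : P.natDegree ≤ 2 := by
    rw [hP]
    exact natDegree_quadratic_le
  calc (Finset.univ.filter (fun x : ZMod p => a * x ^ 2 + b * x + c = y)).card
      ≤ P.roots.toFinset.card := by
        apply Finset.card_le_card
        intro x hx
        simp only [Finset.mem_filter, Finset.mem_univ, true_and] at hx
        rw [Multiset.mem_toFinset, mem_roots hP0, IsRoot.def]
        simp only [hP, eval_add, eval_mul, eval_C, eval_pow, eval_X]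
        linear_combination hx
    _ ≤ Multiset.card P.roots := Multiset.toFinset_card_le _
    _ ≤ P.natDegree := card_roots' P
    _ ≤ 2 := hdeg

lemma quad_card (p : ℕ) [Fact p.Prime] (a b c : ZMod p) (h : a ≠ 0 ∨ b ≠ 0)
    (S : Finset (ZMod p)) (hS : ∀ x : ZMod p, a * x ^ 2 + b * x + c ∈ S) :
    p ≤ 2 * S.card := by
  have h1 := Finset.card_le_mul_card_image_of_maps_to (s := (Finset.univ : Finset (ZMod p)))
    (t := S) (f := fun x => a * x ^ 2 + b * x + c) (fun x _ => hS x) 2
    (fun y _ => quad_fiber p a b c y h)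
  rw [Finset.card_univ, ZMod.card] at h1
  exact h1

/-- `D` contains no image of a nonconstant polynomial of degree at most two. -/
def QFree (M : ℕ) (D : Finset (ZMod M)) : Prop :=
  ∀ a b c : ZMod M, (a ≠ 0 ∨ b ≠ 0) → ∃ x : ZMod M, a * x ^ 2 + b * x + c ∉ D

/-- The digit argument. -/
lemma digit_kill (M : ℕ) [hM : Fact M.Prime] (D : Finset (ZMod M)) (hD : QFree M D) :
    ∀ (d : ℕ) (a b c : ℤ), 0 < a → a < (M : ℤ) ^ d →
      (∀ j : ℕ, 1 ≤ j → j ≤ M → ∀ e < d,
        (((a * j ^ 2 + b * j + c) / (M : ℤ) ^ e : ℤ) : ZMod M) ∈ D) → False := by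
  have hM0 : (0 : ℤ) < M := by exact_mod_cast hM.out.pos
  intro d
  induction d with
  | zero =>
    intro a b c h1 h2 _
    simp at h2
    omega
  | succ d ih =>
    intro a b c h1 h2 h3
    by_cases h : (M : ℤ) ∣ a ∧ (M : ℤ) ∣ b
    · obtain ⟨⟨a1, ha1⟩, ⟨b1, hb1⟩⟩ := h
      apply ih a1 b1 (c / M)
      · by_contra hcon
        push Not at hcon
        have : (M : ℤ) * a1 ≤ 0 := mul_nonpos_of_nonneg_of_nonpos hM0.le hcon
        omega
      · rw [ha1, pow_succ'] at h2
        exact lt_of_mul_lt_mul_left h2 hM0.le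
      · intro j hj1 hj2 e he
        have h4 := h3 j hj1 hj2 (e + 1) (by omega)
        have h5 : (a * j ^ 2 + b * j + c) / (M : ℤ) ^ (e + 1)
            = (a1 * j ^ 2 + b1 * j + c / M) / (M : ℤ) ^ e := by
          rw [pow_succ' (M : ℤ) e, ← Int.ediv_ediv_of_nonneg hM0.le]
          congr 1
          have : a * j ^ 2 + b * j + c = c + M * (a1 * j ^ 2 + b1 * j) := by
            rw [ha1, hb1]; ring
          rw [this, Int.add_mul_ediv_left _ _ hM0.ne']
          ring
        rw [h5] at h4
        exact h4
    · have hab : (a : ZMod M) ≠ 0 ∨ (b : ZMod M) ≠ 0 := by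
        by_contra hcon
        push Not at hcon
        apply h
        exact ⟨(ZMod.intCast_zmod_eq_zero_iff_dvd a M).1 hcon.1,
          (ZMod.intCast_zmod_eq_zero_iff_dvd b M).1 hcon.2⟩
      obtain ⟨x, hx⟩ := hD (a : ZMod M) (b : ZMod M) (c : ZMod M) hab
      apply hx
      obtain ⟨j, hj1, hj2, hjx⟩ : ∃ j : ℕ, 1 ≤ j ∧ j ≤ M ∧ (j : ZMod M) = x := by
        by_cases hx : x.val = 0
        · refine ⟨M, hM.out.one_lt.le, le_refl _, ?_⟩
          have : x = 0 := (ZMod.val_eq_zero x).1 hx
          rw [this]; simp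
        · refine ⟨x.val, by omega, (ZMod.val_lt x).le, ?_⟩
          simp
      have h4 := h3 j hj1 hj2 0 (by omega)
      simp only [pow_zero, Int.ediv_one] at h4
      push_cast at h4
      rw [hjx] at h4
      exact h4

/-- small sets are `QFree` -/
lemma qfree_half (M : ℕ) [Fact M.Prime] (D : Finset (ZMod M)) (h : 2 * D.card < M) :
    QFree M D := by
  intro a b c hab
  by_contra hcon
  push Not at hcon
  have := quad_card M a b c hab D hcon
  omega

/-- images of `s y² + c` have more than half of all residues -/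
lemma image_card (M : ℕ) [hM : Fact M.Prime] (hM2 : 3 ≤ M) (s c : ZMod M) (hs : s ≠ 0) :
    (M + 1) ≤ 2 * ((Finset.univ : Finset (ZMod M)).image (fun y => s * y ^ 2 + c)).card := by
  have h := quad_card M s 0 c (Or.inl hs)
    ((Finset.univ : Finset (ZMod M)).image (fun y => s * y ^ 2 + c)) (by
      intro x
      apply Finset.mem_image.2
      exact ⟨x, Finset.mem_univ _, by ring⟩)
  have hodd : M % 2 = 1 := by
    rcases hM.out.eq_two_or_odd with h | h
    · omega
    · exact h
  omega

/-- A hitting set of size about `log₂ M` for the images of nonconstant quadratics. -/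
lemma exists_hitting (M : ℕ) [hM : Fact M.Prime] (hM2 : 3 ≤ M) :
    ∃ U : Finset (ZMod M), U.card ≤ Nat.log 2 M + 2 ∧
      ∀ a b c : ZMod M, (a ≠ 0 ∨ b ≠ 0) → ∃ x : ZMod M, a * x ^ 2 + b * x + c ∈ U := by
  classical
  set u : ℕ := Nat.log 2 M + 2 with hu
  have hM0 : 0 < M := hM.out.pos
  have hu2 : 2 * M < 2 ^ u := by
    rw [hu]
    have := Nat.lt_pow_succ_log_self (b := 2) (by norm_num) M
    rw [pow_succ] at this ⊢
    rw [pow_succ] at *
    omega
  -- characteristic is odd
  have hodd : M % 2 = 1 := by
    rcases hM.out.eq_two_or_odd with h | h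
    · omega
    · exact h
  have h2 : (2 : ZMod M) ≠ 0 := by
    intro h
    have : ((2 : ℕ) : ZMod M) = 0 := by exact_mod_cast h
    rw [ZMod.natCast_eq_zero_iff] at this
    have := Nat.le_of_dvd (by norm_num) this
    omega
  obtain ⟨ν, hν⟩ : ∃ ν : ZMod M, ¬ IsSquare ν := by
    apply FiniteField.exists_nonsquare
    rw [ZMod.ringChar_zmod_n]
    omega
  have hν0 : ν ≠ 0 := by
    intro h; apply hν; rw [h]; exact ⟨0, by simp⟩
  -- the family of images
  set im : (ZMod M) × Bool → Finset (ZMod M) := fun q =>
    (Finset.univ : Finset (ZMod M)).image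
      (fun y => (if q.2 then ν else 1) * y ^ 2 + q.1) with him
  have himcard : ∀ q, (M + 1) ≤ 2 * (im q).card := by
    intro q
    apply image_card M hM2
    split_ifs
    · exact hν0
    · exact one_ne_zero
  -- counting bad functions
  set Bad : (ZMod M) × Bool → Finset (Fin u → ZMod M) := fun q =>
    Fintype.piFinset (fun _ => (im q)ᶜ) with hBad
  have hBadcard : ∀ q, (Bad q).card ≤ ((M - 1) / 2) ^ u := by
    intro q
    rw [hBad]
    simp only
    rw [Fintype.card_piFinset_const]
    apply Nat.pow_le_pow_left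
    rw [Finset.card_compl, ZMod.card]
    have := himcard q
    omega
  have htot : (Finset.univ.biUnion Bad).card < (Finset.univ : Finset (Fin u → ZMod M)).card := by
    have h1 : (Finset.univ.biUnion Bad).card ≤ (2 * M) * ((M - 1) / 2) ^ u := by
      calc (Finset.univ.biUnion Bad).card ≤ ∑ q, (Bad q).card := Finset.card_biUnion_le
        _ ≤ ∑ _q : (ZMod M) × Bool, ((M - 1) / 2) ^ u :=
            Finset.sum_le_sum (fun q _ => hBadcard q)
        _ = (2 * M) * ((M - 1) / 2) ^ u := by
            rw [Finset.sum_const, Finset.card_univ, Fintype.card_prod, ZMod.card,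
              Fintype.card_bool, smul_eq_mul]
            ring
    have h3 : (Finset.univ : Finset (Fin u → ZMod M)).card = M ^ u := by
      rw [Finset.card_univ, Fintype.card_fun, ZMod.card, Fintype.card_fin]
    rw [h3]
    refine lt_of_le_of_lt h1 ?_
    have hpos : 0 < ((M - 1) / 2) ^ u := by
      apply Nat.pow_pos; omega
    calc (2 * M) * ((M - 1) / 2) ^ u < 2 ^ u * ((M - 1) / 2) ^ u :=
          Nat.mul_lt_mul_of_pos_right hu2 hpos
      _ = (2 * ((M - 1) / 2)) ^ u := by rw [Nat.mul_pow]
      _ ≤ M ^ u := by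
          apply Nat.pow_le_pow_left; omega
  obtain ⟨w, _, hw⟩ := Finset.exists_mem_notMem_of_card_lt_card htot
  have hw' : ∀ q, ∃ i, w i ∈ im q := by
    intro q
    by_contra hcon
    push Not at hcon
    apply hw
    rw [Finset.mem_biUnion]
    refine ⟨q, Finset.mem_univ _, ?_⟩
    rw [hBad]
    simp only
    rw [Fintype.mem_piFinset]
    intro i
    rw [Finset.mem_compl]
    exact hcon i
  refine ⟨Finset.univ.image w, ?_, ?_⟩
  · calc (Finset.univ.image w).card ≤ (Finset.univ : Finset (Fin u)).card :=
        Finset.card_image_le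
      _ = u := by simp
  · intro a b c hab
    by_cases ha : a = 0
    · -- linear
      have hb : b ≠ 0 := by
        rcases hab with h | h
        · exact absurd ha h
        · exact h
      obtain ⟨i, _⟩ := hw' (0, false)
      refine ⟨(w i - c) / b, ?_⟩
      rw [Finset.mem_image]
      refine ⟨i, Finset.mem_univ _, ?_⟩
      rw [ha]
      field_simp
      ring
    · -- quadratic
      set c' : ZMod M := c - b ^ 2 / (4 * a) with hc'
      have h4 : (4 : ZMod M) ≠ 0 := by
        have : (4 : ZMod M) = 2 * 2 := by norm_num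
        rw [this]; exact mul_ne_zero h2 h2
      have hsq : ∃ (q2 : Bool) (s : ZMod M), s ≠ 0 ∧ (if q2 then ν else 1) = a * s ^ 2 := by
        by_cases hsa : IsSquare a
        · obtain ⟨r, hr⟩ := hsa
          have hr0 : r ≠ 0 := by
            intro h; apply ha; rw [hr, h]; ring
          refine ⟨false, r⁻¹, inv_ne_zero hr0, ?_⟩
          rw [hr]
          simp only [Bool.false_eq_true, if_false]
          field_simp
        · -- `ν / a` is a square
          have hchar : ringChar (ZMod M) ≠ 2 := by
            rw [ZMod.ringChar_zmod_n]; omega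
          have h5 : quadraticChar (ZMod M) (ν * a) = 1 := by
            rw [map_mul]
            rw [(quadraticChar_neg_one_iff_not_isSquare).2 hν,
              (quadraticChar_neg_one_iff_not_isSquare).2 hsa]
            norm_num
          have h6 : IsSquare (ν * a) :=
            (quadraticChar_one_iff_isSquare (mul_ne_zero hν0 ha)).1 h5
          obtain ⟨r, hr⟩ := h6
          have hr0 : r ≠ 0 := by
            intro h
            rw [h, mul_zero] at hr
            exact (mul_ne_zero hν0 ha) hr
          refine ⟨true, r / a, div_ne_zero hr0 ha, ?_⟩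
          simp only [if_true]
          field_simp
          rw [hr]; ring
      obtain ⟨q2, s, hs0, hs⟩ := hsq
      obtain ⟨i, hi⟩ := hw' (c', q2)
      rw [him] at hi
      simp only [Finset.mem_image, Finset.mem_univ, true_and] at hi
      obtain ⟨y, hy⟩ := hi
      refine ⟨s * y - b / (2 * a), ?_⟩
      rw [Finset.mem_image]
      refine ⟨i, Finset.mem_univ _, ?_⟩
      rw [← hy, hs, hc']
      field_simp
      ring

/-- A large `QFree` set. -/
lemma exists_qfree (M : ℕ) [hM : Fact M.Prime] (hM2 : 3 ≤ M) :
    ∃ D : Finset (ZMod M), M - min ((M + 1) / 2) (Nat.log 2 M + 2) = D.card ∧ QFree M D := by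
  classical
  by_cases h : (M + 1) / 2 ≤ Nat.log 2 M + 2
  · rw [min_eq_left h]
    obtain ⟨D, _, hD2⟩ := Finset.exists_subset_card_eq
      (s := (Finset.univ : Finset (ZMod M))) (n := M - (M + 1) / 2) (by
        rw [Finset.card_univ, ZMod.card]; omega)
    refine ⟨D, hD2.symm, qfree_half M D ?_⟩
    rw [hD2]
    have hodd : M % 2 = 1 := by
      rcases hM.out.eq_two_or_odd with h | h
      · omega
      · exact h
    omega
  · push Not at h
    rw [min_eq_right h.le]
    obtain ⟨U, hU1, hU2⟩ := exists_hitting M hM2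
    have hc : M - (Nat.log 2 M + 2) ≤ Uᶜ.card := by
      rw [Finset.card_compl, ZMod.card]; omega
    obtain ⟨D, hD1, hD2⟩ := Finset.exists_subset_card_eq hc
    refine ⟨D, hD2.symm, ?_⟩
    intro a b c hab
    obtain ⟨x, hx⟩ := hU2 a b c hab
    refine ⟨x, fun hxD => ?_⟩
    have := hD1 hxD
    rw [Finset.mem_compl] at this
    exact this hx

end Pool.Agent.Work.MP_b928c0_nt
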